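import Mathlib

/-!
# CR, leaf K2a: the Poisson kernel on a window
-/

set_option autoImplicit false

namespace Pool.Agent.Helper16.CR

open Complex Filter Topology MeasureTheory Set Metric

lemma k2a_norm_sq (σ y : ℝ) : ‖(σ : ℂ) + (y : ℂ) * I‖ ^ 2 = σ ^ 2 + y ^ 2 := by
  rw [← Complex.normSq_eq_norm_sq, Complex.normSq_add_mul_I]

/-- K2a. Poisson kernel on a window (Mathlib only) -/
theorem poisson_window (γ ε : ℝ) (hε : 0 < ε) (hεγ : ε < |γ|) :
    Tendsto (fun σ : ℝ => σ * ∫ τ in Icc (γ - ε) (γ + ε),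
      (‖(σ : ℂ) + (τ : ℂ) * I - (γ : ℂ) * I‖ ^ 2)⁻¹ * (‖(σ : ℂ) + (τ : ℂ) * I‖ ^ 2)⁻¹) (𝓝[>] 0)
      (𝓝 (Real.pi / γ ^ 2)) := by
  have hγ : γ ≠ 0 := by
    intro h
    rw [h, abs_zero] at hεγ
    exact absurd hεγ (not_lt.mpr hε.le)
  have hγ2 : (0 : ℝ) < γ ^ 2 := by positivity
  have hd : 0 < |γ| - ε := by linarith
  -- the rescaled integrand
  set H : ℝ → ℝ → ℝ := fun σ u => indicator (Icc (γ - ε) (γ + ε))
    (fun τ => (‖(σ : ℂ) + (τ : ℂ) * I - (γ : ℂ) * I‖ ^ 2)⁻¹ * (‖(σ : ℂ) + (τ : ℂ) * I‖ ^ 2)⁻¹)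
      (γ + σ * u) with hH
  have hval : ∀ σ u : ℝ, 0 < σ → |σ * u| ≤ ε → σ ^ 2 * H σ u =
      (1 + u ^ 2)⁻¹ * (σ ^ 2 + (γ + σ * u) ^ 2)⁻¹ := by
    intro σ u hσ hu
    have hmem : γ + σ * u ∈ Icc (γ - ε) (γ + ε) := by
      rw [abs_le] at hu
      constructor <;> linarith [hu.1, hu.2]
    have h1 : (σ : ℂ) + ((γ + σ * u : ℝ) : ℂ) * I - (γ : ℂ) * I = (σ : ℂ) + ((σ * u : ℝ) : ℂ) * I := by
      push_cast
      ring
    simp only [hH]
    rw [indicator_of_mem hmem, h1, k2a_norm_sq, k2a_norm_sq]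
    have h2 : σ ^ 2 + (σ * u) ^ 2 = σ ^ 2 * (1 + u ^ 2) := by ring
    rw [h2, mul_inv, ← mul_assoc, ← mul_assoc, mul_inv_cancel₀ (by positivity), one_mul]
  have hzero : ∀ σ u : ℝ, ¬ (|σ * u| ≤ ε) → H σ u = 0 := by
    intro σ u hu
    have hmem : γ + σ * u ∉ Icc (γ - ε) (γ + ε) := by
      intro h
      apply hu
      rw [abs_le]
      constructor <;> linarith [h.1, h.2]
    simp only [hH]
    rw [indicator_of_notMem hmem]
  have hsub : ∀ σ : ℝ, 0 < σ → σ * ∫ τ in Icc (γ - ε) (γ + ε),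
      (‖(σ : ℂ) + (τ : ℂ) * I - (γ : ℂ) * I‖ ^ 2)⁻¹ * (‖(σ : ℂ) + (τ : ℂ) * I‖ ^ 2)⁻¹ =
      ∫ u : ℝ, σ ^ 2 * H σ u := by
    intro σ hσ
    rw [integral_const_mul, ← integral_indicator measurableSet_Icc]
    have h1 := Measure.integral_comp_mul_left (fun x : ℝ => indicator (Icc (γ - ε) (γ + ε))
      (fun τ => (‖(σ : ℂ) + (τ : ℂ) * I - (γ : ℂ) * I‖ ^ 2)⁻¹ * (‖(σ : ℂ) + (τ : ℂ) * I‖ ^ 2)⁻¹)
      (γ + x)) σ
    have h2 := integral_add_left_eq_self (μ := (volume : Measure ℝ)) (fun x : ℝ => indicator (Icc (γ - ε) (γ + ε))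
      (fun τ => (‖(σ : ℂ) + (τ : ℂ) * I - (γ : ℂ) * I‖ ^ 2)⁻¹ * (‖(σ : ℂ) + (τ : ℂ) * I‖ ^ 2)⁻¹) x) γ
    rw [h2] at h1
    simp only [hH]
    rw [h1, abs_of_pos (inv_pos.mpr hσ), smul_eq_mul, ← mul_assoc]
    congr 1
    field_simp
  have hlim : Tendsto (fun σ : ℝ => ∫ u : ℝ, σ ^ 2 * H σ u) (𝓝[>] 0)
      (𝓝 (∫ u : ℝ, (1 + u ^ 2)⁻¹ * (γ ^ 2)⁻¹)) := by
    refine tendsto_integral_filter_of_dominated_convergence
      (fun u : ℝ => (1 + u ^ 2)⁻¹ * ((|γ| - ε) ^ 2)⁻¹) ?_ ?_ ?_ ?_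
    · filter_upwards [self_mem_nhdsWithin] with σ hσ
      apply Measurable.aestronglyMeasurable
      apply Measurable.const_mul
      apply Measurable.comp (g := indicator (Icc (γ - ε) (γ + ε))
        (fun τ => (‖(σ : ℂ) + (τ : ℂ) * I - (γ : ℂ) * I‖ ^ 2)⁻¹ * (‖(σ : ℂ) + (τ : ℂ) * I‖ ^ 2)⁻¹))
        (f := fun u : ℝ => γ + σ * u)
      · apply Measurable.indicator _ measurableSet_Icc
        fun_prop
      · fun_prop
    · filter_upwards [self_mem_nhdsWithin] with σ hσ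
      refine Eventually.of_forall fun u => ?_
      have hσ' : 0 < σ := hσ
      by_cases hu : |σ * u| ≤ ε
      · rw [hval σ u hσ' hu, Real.norm_eq_abs, abs_of_nonneg (by positivity)]
        apply mul_le_mul_of_nonneg_left _ (by positivity)
        apply inv_anti₀ (by positivity)
        have h1 : |γ| - ε ≤ |γ + σ * u| := by
          have h3 : |γ| ≤ |γ + σ * u| + |σ * u| := by
            have h4 := abs_sub (γ + σ * u) (σ * u)
            have h5 : γ + σ * u - σ * u = γ := by ring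
            rw [h5] at h4
            exact h4
          linarith
        have h2 : (|γ| - ε) ^ 2 ≤ |γ + σ * u| ^ 2 := by
          apply pow_le_pow_left₀ hd.le h1
        rw [sq_abs] at h2
        nlinarith [sq_nonneg σ]
      · rw [hzero σ u hu, mul_zero, norm_zero]
        positivity
    · exact integrable_inv_one_add_sq.mul_const _
    · refine Eventually.of_forall fun u => ?_
      have h1 : ∀ᶠ σ : ℝ in 𝓝[>] 0, |σ * u| ≤ ε := by
        have h2 : Tendsto (fun σ : ℝ => |σ * u|) (𝓝[>] 0) (𝓝 |0 * u|) := by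
          apply Tendsto.mono_left _ nhdsWithin_le_nhds
          exact (continuous_abs.comp (continuous_id.mul continuous_const)).tendsto 0
        rw [zero_mul, abs_zero] at h2
        exact (h2.eventually (gt_mem_nhds hε)).mono fun σ h => h.le
      have h3 : Tendsto (fun σ : ℝ => (1 + u ^ 2)⁻¹ * (σ ^ 2 + (γ + σ * u) ^ 2)⁻¹) (𝓝[>] 0)
          (𝓝 ((1 + u ^ 2)⁻¹ * (γ ^ 2)⁻¹)) := by
        apply Tendsto.const_mul
        apply Tendsto.inv₀ _ hγ2.ne'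
        have h4 : Tendsto (fun σ : ℝ => σ ^ 2 + (γ + σ * u) ^ 2) (𝓝[>] 0)
            (𝓝 ((0 : ℝ) ^ 2 + (γ + 0 * u) ^ 2)) := by
          apply Tendsto.mono_left _ nhdsWithin_le_nhds
          have h5 : Continuous fun σ : ℝ => σ ^ 2 + (γ + σ * u) ^ 2 := by fun_prop
          exact h5.tendsto 0
        simpa using h4
      apply h3.congr'
      filter_upwards [h1, self_mem_nhdsWithin] with σ hu hσ
      rw [hval σ u hσ hu]
  rw [integral_mul_const, integral_univ_inv_one_add_sq, ← div_eq_mul_inv] at hlim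
  apply hlim.congr'
  filter_upwards [self_mem_nhdsWithin] with σ hσ
  rw [hsub σ hσ]

end Pool.Agent.Helper16.CR
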