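import Pool.Agent.Helper29.CR.C5

/-!
# CR, leaf K4: the derivative of `VV` is bounded near compact sets of the imaginary axis without zeros
-/

set_option autoImplicit false

namespace Pool.Agent.Helper16.CR

open Complex Filter Topology MeasureTheory Set Metric
open Pool.Agent.Helper13.Bsd Pool.Agent.Helper7.GW Pool.Agent.Helper58.BSD Pool.Agent.Helper29.MS

variable {v : ℝ → ℝ} {G : ℂ → ℂ} {A a η B c : ℝ} {k : ℕ}

lemma k4_deriv_L (hF : Frame v G A a η B c k) {L : ℂ → ℂ} (hL : Branch v G a L) {w : ℂ} (hw : 0 < w.re) :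
    HasDerivAt L (deriv G w / G w) w := by
  have hη := hF.setup.hη
  have hopen : ∀ x : ℝ, IsOpen {w : ℂ | x < w.re} := fun x => isOpen_lt continuous_const continuous_re
  have hLd : DifferentiableAt ℂ L w := hL.diff.differentiableAt ((hopen 0).mem_nhds hw)
  have hmem : w ∈ {s : ℂ | -η < s.re} := by
    show -η < w.re
    linarith
  have hGd : DifferentiableAt ℂ G w := hF.setup.diff.differentiableAt ((hopen (-η)).mem_nhds hmem)
  have h1 : HasDerivAt (fun w => cexp (L w)) (cexp (L w) * deriv L w) w := hLd.hasDerivAt.cexp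
  have h2 : (fun w => cexp (L w)) =ᶠ[𝓝 w] G := by
    filter_upwards [(hopen 0).mem_nhds hw] with z hz using hL.exp z hz
  have h3 : HasDerivAt G (cexp (L w) * deriv L w) w := h1.congr_of_eventuallyEq h2.symm
  have h4 := h3.deriv
  have h5 : deriv L w = deriv G w / G w := by
    rw [h4, hL.exp w hw, mul_div_cancel_left₀ _ (hF.rh w hw)]
  rw [← h5]
  exact hLd.hasDerivAt

/-- near one point of the axis, not zero and not a zero of `G` -/
lemma k4_local (hF : Frame v G A a η B c k) {L : ℂ → ℂ} (hL : Branch v G a L) (y : ℝ) (hy : y ≠ 0)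
    (h0 : G ((y : ℂ) * I) ≠ 0) :
    ∃ r C : ℝ, 0 < r ∧ 0 ≤ C ∧ ∀ w : ℂ, 0 < w.re → ‖w - (y : ℂ) * I‖ < r →
      ‖deriv (VV L (kap G)) w‖ ≤ C := by
  have hη := hF.setup.hη
  have hopen : ∀ x : ℝ, IsOpen {w : ℂ | x < w.re} := fun x => isOpen_lt continuous_const continuous_re
  have hmem : (y : ℂ) * I ∈ {s : ℂ | -η < s.re} := by
    show -η < ((y : ℂ) * I).re
    simp [hη]
  have hGan : AnalyticAt ℂ G ((y : ℂ) * I) := hF.setup.diff.analyticAt ((hopen (-η)).mem_nhds hmem)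
  have hGc : ContinuousAt G ((y : ℂ) * I) := hGan.continuousAt
  have hG'c : ContinuousAt (deriv G) ((y : ℂ) * I) := hGan.deriv.continuousAt
  -- the logarithmic derivative is bounded near the point
  have hqc : ContinuousAt (fun w => deriv G w / G w) ((y : ℂ) * I) := hG'c.div hGc h0
  set M : ℝ := ‖deriv G ((y : ℂ) * I) / G ((y : ℂ) * I)‖ + 1 with hM
  have hM0 : 0 ≤ M := by positivity
  have h1 : ∀ᶠ w in 𝓝 ((y : ℂ) * I), ‖deriv G w / G w‖ < M := by
    have := hqc.norm.tendsto.eventually (gt_mem_nhds (lt_add_one _))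
    exact this
  obtain ⟨r1, hr1, hball⟩ := Metric.eventually_nhds_iff_ball.mp h1
  set r : ℝ := min r1 (|y| / 2) with hr
  have hy' : 0 < |y| := abs_pos.mpr hy
  have hrpos : 0 < r := lt_min hr1 (by linarith)
  -- the convex half ball
  set U : Set ℂ := ball ((y : ℂ) * I) r ∩ {w : ℂ | 0 < w.re} with hU
  have hUc : Convex ℝ U := (convex_ball _ _).inter (convex_halfSpace_re_gt 0)
  have hbound : ∀ w ∈ U, ‖deriv G w / G w‖ ≤ M := by
    intro w hw
    apply (hball w _).le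
    exact ball_subset_ball (min_le_left _ _) hw.1
  set w0 : ℂ := (y : ℂ) * I + ((r / 2 : ℝ) : ℂ) with hw0
  have hw0U : w0 ∈ U := by
    constructor
    · rw [mem_ball, dist_eq_norm, hw0, add_sub_cancel_left, norm_real, Real.norm_eq_abs, abs_of_pos (by linarith)]
      linarith
    · show 0 < w0.re
      simp [hw0]
      linarith
  have hLip : ∀ w ∈ U, ‖L w - L w0‖ ≤ M * ‖w - w0‖ := by
    intro w hw
    exact hUc.norm_image_sub_le_of_norm_hasDerivWithin_le
      (fun x hx => (k4_deriv_L hF hL hx.2).hasDerivWithinAt) hbound hw0U hw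
  have hLb : ∀ w ∈ U, ‖L w‖ ≤ ‖L w0‖ + M * (2 * r) := by
    intro w hw
    have h2 := hLip w hw
    have h3 : ‖w - w0‖ ≤ 2 * r := by
      have h4 : dist w w0 ≤ dist w ((y : ℂ) * I) + dist w0 ((y : ℂ) * I) := dist_triangle_right _ _ _
      have h5 : dist w ((y : ℂ) * I) < r := hw.1
      have h6 : dist w0 ((y : ℂ) * I) < r := hw0U.1
      rw [← dist_eq_norm]
      linarith
    have h4 : ‖L w‖ ≤ ‖L w0‖ + ‖L w - L w0‖ := by
      have := norm_add_le (L w0) (L w - L w0)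
      rwa [add_sub_cancel] at this
    have h5 : M * ‖w - w0‖ ≤ M * (2 * r) := mul_le_mul_of_nonneg_left h3 hM0
    linarith
  set C : ℝ := M / (|y| / 2) + (‖L w0‖ + M * (2 * r) + |kap G|) / (|y| / 2) ^ 2 with hC
  refine ⟨r, C, hrpos, by positivity, ?_⟩
  intro w hw hwr
  have hwU : w ∈ U := ⟨by rw [mem_ball, dist_eq_norm]; exact hwr, hw⟩
  have hwn : |y| / 2 ≤ ‖w‖ := by
    have h2 : ‖(y : ℂ) * I‖ = |y| := by
      rw [norm_mul, norm_I, mul_one, norm_real, Real.norm_eq_abs]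
    have h3 : ‖(y : ℂ) * I‖ ≤ ‖w‖ + ‖w - (y : ℂ) * I‖ := by
      have := norm_sub_le w (w - (y : ℂ) * I)
      rwa [sub_sub_cancel] at this
    have h4 : r ≤ |y| / 2 := min_le_right _ _
    rw [h2] at h3
    linarith
  have hwn0 : 0 < ‖w‖ := by linarith
  have hw0' : w ≠ 0 := norm_pos_iff.mp hwn0
  have hder : HasDerivAt (VV L (kap G))
      ((-(deriv G w / G w) * w - (-(L w + (kap G : ℂ))) * 1) / w ^ 2) w := by
    have h2 : HasDerivAt (fun w => -(L w + (kap G : ℂ))) (-(deriv G w / G w)) w :=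
      ((k4_deriv_L hF hL hw).add_const _).neg
    exact h2.div (hasDerivAt_id w) hw0'
  rw [hder.deriv]
  have h2 : (-(deriv G w / G w) * w - (-(L w + (kap G : ℂ))) * 1) / w ^ 2 =
      -(deriv G w / G w) / w + (L w + (kap G : ℂ)) / w ^ 2 := by
    field_simp
    ring
  rw [h2]
  calc ‖-(deriv G w / G w) / w + (L w + (kap G : ℂ)) / w ^ 2‖
      ≤ ‖-(deriv G w / G w) / w‖ + ‖(L w + (kap G : ℂ)) / w ^ 2‖ := norm_add_le _ _
    _ = ‖deriv G w / G w‖ / ‖w‖ + ‖L w + (kap G : ℂ)‖ / ‖w‖ ^ 2 := by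
        rw [norm_div, norm_neg, norm_div (L w + _), norm_pow]
    _ ≤ C := by
        rw [hC]
        have h3 : ‖L w + (kap G : ℂ)‖ ≤ ‖L w0‖ + M * (2 * r) + |kap G| := by
          have h4 : ‖((kap G : ℝ) : ℂ)‖ = |kap G| := by rw [norm_real, Real.norm_eq_abs]
          have h5 := norm_add_le (L w) (kap G : ℂ)
          rw [h4] at h5
          linarith [hLb w hwU]
        apply add_le_add
        · exact div_le_div₀ hM0 (hbound w hwU) (by positivity) hwn
        · apply div_le_div₀ (by positivity) h3 (by positivity)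
          exact pow_le_pow_left₀ (by positivity) hwn 2

/-- K4. compact sets without zeros -/
theorem middle (hF : Frame v G A a η B c k) {L : ℂ → ℂ} (hL : Branch v G a L) (S : Set ℝ) (hS : IsCompact S)
    (h0 : ∀ y ∈ S, G ((y : ℂ) * I) ≠ 0) :
    ∃ σ0 C : ℝ, 0 < σ0 ∧ 0 ≤ C ∧ ∀ σ : ℝ, 0 < σ → σ ≤ σ0 → ∀ y ∈ S,
      ‖deriv (VV L (kap G)) ((σ : ℂ) + (y : ℂ) * I)‖ ≤ C := by
  refine hS.induction_on (p := fun S => ∃ σ0 C : ℝ, 0 < σ0 ∧ 0 ≤ C ∧ ∀ σ : ℝ, 0 < σ → σ ≤ σ0 → ∀ y ∈ S,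
      ‖deriv (VV L (kap G)) ((σ : ℂ) + (y : ℂ) * I)‖ ≤ C) ?_ ?_ ?_ ?_
  · exact ⟨1, 0, one_pos, le_rfl, fun σ _ _ y hy => absurd hy (notMem_empty y)⟩
  · rintro s t hst ⟨σ0, C, h1, h2, h3⟩
    exact ⟨σ0, C, h1, h2, fun σ hσ hσ' y hy => h3 σ hσ hσ' y (hst hy)⟩
  · rintro s t ⟨σ1, C1, h1, h2, h3⟩ ⟨σ2, C2, h4, h5, h6⟩
    refine ⟨min σ1 σ2, max C1 C2, lt_min h1 h4, le_max_of_le_left h2, ?_⟩
    intro σ hσ hσ' y hy
    rcases hy with hy | hy
    · exact (h3 σ hσ (hσ'.trans (min_le_left _ _)) y hy).trans (le_max_left _ _)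
    · exact (h6 σ hσ (hσ'.trans (min_le_right _ _)) y hy).trans (le_max_right _ _)
  · intro y hy
    have hloc : ∃ r C : ℝ, 0 < r ∧ 0 ≤ C ∧ ∀ w : ℂ, 0 < w.re → ‖w - (y : ℂ) * I‖ < r →
        ‖deriv (VV L (kap G)) w‖ ≤ C := by
      by_cases hy0 : y = 0
      · obtain ⟨δ, K, h1, h2, h3⟩ := near_zero_deriv hF hL
        refine ⟨δ, K, h1, h2, ?_⟩
        intro w hw hwr
        apply h3 w hw
        rw [hy0] at hwr
        simpa using hwr
      · exact k4_local hF hL y hy0 (h0 y hy)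
    obtain ⟨r, C, hr, hC, hb⟩ := hloc
    refine ⟨Ioo (y - r / 2) (y + r / 2), mem_nhdsWithin_of_mem_nhds (Ioo_mem_nhds (by linarith) (by linarith)),
      r / 2, C, by linarith, hC, ?_⟩
    intro σ hσ hσ' x hx
    apply hb
    · simp [hσ]
    · have h1 : (σ : ℂ) + (x : ℂ) * I - (y : ℂ) * I = (σ : ℂ) + ((x - y : ℝ) : ℂ) * I := by
        push_cast
        ring
      rw [h1]
      have h2 : ‖(σ : ℂ) + ((x - y : ℝ) : ℂ) * I‖ ≤ |σ| + |x - y| := by
        have h3 := norm_add_le (σ : ℂ) (((x - y : ℝ) : ℂ) * I)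
        rwa [norm_mul, norm_I, mul_one, norm_real, norm_real, Real.norm_eq_abs, Real.norm_eq_abs] at h3
      have h3 : |x - y| < r / 2 := by
        rw [abs_lt]
        constructor <;> linarith [hx.1, hx.2]
      rw [abs_of_pos hσ] at h2
      linarith

end Pool.Agent.Helper16.CR
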